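import Pool.Agent.helper68.SF.SpecS

/-!
Module ss:SPW of project SF (MP_d52931_gt): comparison of the physical sum and the wave sum.
-/

set_option autoImplicit false

namespace SF

open Pool.Agent.helper72.Sq MeasureTheory Set Filter

lemma SPW_sign_bd (x : ℝ) : |Real.sign x| ≤ 1 := by
  rcases lt_trichotomy x 0 with h | h | h
  · rw [Real.sign_of_neg h]; norm_num
  · rw [h, Real.sign_zero]; norm_num
  · rw [Real.sign_of_pos h]; norm_num

lemma SPW_psi_bd (x : ℝ) : |psi x| ≤ 2 := by
  unfold psi c5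
  have h1 := abs_le.1 (SPW_sign_bd (Int.fract x - 1 / 5))
  have h2 := abs_le.1 (SPW_sign_bd (Int.fract x - 2 / 5))
  have h3 := abs_le.1 (SPW_sign_bd (Int.fract x - 3 / 5))
  have h4 := abs_le.1 (SPW_sign_bd (Int.fract x - 4 / 5))
  rw [abs_le]
  constructor <;> linarith [h1.1, h1.2, h2.1, h2.2, h3.1, h3.2, h4.1, h4.2]

lemma SPW_pw_bd (w : List Bool) : |pw w| ≤ 2 := SPW_psi_bd _

lemma SPW_desc_append (w w' : List Bool) (P : Tri) : desc (w ++ w') P = desc w' (desc w P) := by
  induction w generalizing P with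
  | nil => rfl
  | cons b w ih => cases b <;> simp only [List.cons_append, desc, ih]

lemma SPW_desc_true (w : List Bool) (P : Tri) : desc (w ++ [true]) P = Lm (desc w P) := by
  rw [SPW_desc_append]; rfl

lemma SPW_desc_false (w : List Bool) (P : Tri) : desc (w ++ [false]) P = Rm (desc w P) := by
  rw [SPW_desc_append]; rfl

lemma SPW_bd (g : ℝ → ℝ) (hg : Prof g) : ∃ B : ℝ, 0 ≤ B ∧ Bd 12 B g := by
  have hc : HasCompactSupport g := by
    refine HasCompactSupport.intro (isCompact_Icc : IsCompact (Icc (1 : ℝ) 3)) (fun x hx => ?_)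
    by_cases h1 : x ≤ 1
    · exact hg.lo x h1
    · by_cases h3 : 3 ≤ x
      · exact hg.hi x h3
      · exact absurd ⟨(not_le.1 h1).le, (not_le.1 h3).le⟩ hx
  have h0 : ∀ j : ℕ, HasCompactSupport (iteratedDeriv j g) := by
    intro j
    induction j with
    | zero => rw [iteratedDeriv_zero]; exact hc
    | succ n ih => rw [iteratedDeriv_succ]; exact ih.deriv
  have h2 : ∀ j : ℕ, ∃ B : ℝ, ∀ a, |iteratedDeriv j g a| ≤ B := by
    intro j
    have h1 : Continuous (iteratedDeriv j g) :=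
      hg.smooth.continuous_iteratedDeriv j (by exact_mod_cast le_top)
    obtain ⟨B, hB⟩ := h1.bounded_above_of_compact_support (h0 j)
    exact ⟨B, fun a => by rw [← Real.norm_eq_abs]; exact hB a⟩
  choose B hB using h2
  refine ⟨∑ j ∈ Finset.range 13, |B j|, Finset.sum_nonneg fun _ _ => abs_nonneg _, ?_⟩
  intro j hj a
  refine (hB j a).trans ((le_abs_self _).trans ?_)
  exact Finset.single_le_sum (f := fun j => |B j|) (fun _ _ => abs_nonneg _)
    (Finset.mem_range.2 (by omega))

/-- bound of the cone sums -/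
lemma SPW_jpw_bd (g : ℝ → ℝ) (CJ : ℝ) (hCJ : 0 < CJ)
    (hJ : ∀ (w : List Bool) (l l' : ℝ), 0 < l → 0 < l' →
      (1 ≤ l + l' → jpw g w l l' = 0) ∧
      ∀ m : ℝ, 0 < m → |jpw g w l l' - jpw g w l m| ≤
        CJ * |l' - m| * (1 + 1 / l + 1 / l' + 1 / m) ^ 3)
    (w : List Bool) (l l' : ℝ) (hl : 0 < l) (hl' : 0 < l') :
    |jpw g w l l'| ≤ CJ * (2 + 1 / l + 1 / l') ^ 3 := by
  have h1 := (hJ w l l' hl hl').2 (l' + 1) (by linarith)
  have h2 := (hJ w l (l' + 1) hl (by linarith)).1 (by linarith)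
  rw [h2, sub_zero] at h1
  refine h1.trans ?_
  have h3 : |l' - (l' + 1)| = 1 := by
    rw [show l' - (l' + 1) = -1 by ring]; norm_num
  rw [h3, mul_one]
  have h4 : 1 / (l' + 1) ≤ 1 := by
    rw [div_le_one (by linarith)]; linarith
  have h5 : 0 < 1 / l := by positivity
  have h6 : 0 < 1 / l' := by positivity
  have h7 : 0 < 1 / (l' + 1) := by positivity
  have h8 : 1 + 1 / l + 1 / l' + 1 / (l' + 1) ≤ 2 + 1 / l + 1 / l' := by linarith
  exact mul_le_mul_of_nonneg_left (pow_le_pow_left₀ (by positivity) h8 3) hCJ.le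

lemma SPW_R0 (C : ℝ) : ∃ R0 : ℝ, 2 ≤ R0 ∧ ∀ R : ℝ, R0 ≤ R → (16 * Real.log R + C) / R ≤ 1 / 9 := by
  have h1 : Tendsto (fun R : ℝ => 16 * (Real.log R / R) + C * R⁻¹) atTop (nhds (16 * 0 + C * 0)) := by
    refine Tendsto.add (Tendsto.const_mul _ ?_) (Tendsto.const_mul _ tendsto_inv_atTop_zero)
    have := Real.isLittleO_log_id_atTop.tendsto_div_nhds_zero
    exact this
  have h2 : ∀ᶠ R : ℝ in atTop, 16 * (Real.log R / R) + C * R⁻¹ < 1 / 9 := by
    refine h1.eventually_lt_const ?_
    norm_num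
  obtain ⟨R1, hR1⟩ := eventually_atTop.1 h2
  refine ⟨max 2 R1, le_max_left _ _, fun R hR => ?_⟩
  have h3 := hR1 R ((le_max_right _ _).trans hR)
  have h4 : (16 * Real.log R + C) / R = 16 * (Real.log R / R) + C * R⁻¹ := by
    rw [div_eq_mul_inv, div_eq_mul_inv]; ring
  rw [h4]; exact h3.le

/-- one cone -/
lemma SPW_cone (hTEL : TEL_stmt) (hJW : JW_stmt) (hJ4 : J4_stmt) (hGJB : GJB_stmt) (hLB : LB_stmt)
    (hGAP : GAP_stmt) (hSUM : SUM_stmt) (hPHI : PHI_stmt) (g : ℝ → ℝ) (P : Tri) (hg : Prof g)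
    (hP : Adm P) :
    ∃ C : ℝ, 0 ≤ C ∧ ∀ R : ℝ, 2 ≤ R →
      |(∑ᶠ w : List Bool, pw w * Ph g (len (desc w P).2.2 / R)) -
        (∑' w : List Bool, GJ g R (desc w P)) - jpw g [] (len P.1 / R) (len P.2.1 / R)| ≤
        C * (1 + Real.log R) ^ 2 := by
  obtain ⟨B, hB0, hB⟩ := SPW_bd g hg
  obtain ⟨c, CL, hc, hCL, hlb, hLLM, hcount⟩ := hLB P hP
  obtain ⟨CJ, hCJ, hJ⟩ := hJW g hg
  obtain ⟨C4, hC4⟩ := hJ4 g hg
  obtain ⟨CG, hCG, hG⟩ := hGJB P hP
  obtain ⟨Cg, hCg, hgap⟩ := hGAP P hP
  have hsum := hSUM P hP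
  obtain ⟨-, hPh, -, hPh1, -, Cp, hCp, hphi⟩ := hPHI g hg
  obtain ⟨R0, hR02, hR0⟩ := SPW_R0 CL
  set K2 : ℝ := 2 * Cp * Cg + 2 * (CJ * Cg * (1 + 3 / c) ^ 3) with hK2
  set K3 : ℝ := K2 + CG * B with hK3
  set K : ℝ := K3 * R0 ^ 2 + 2 * Cp + 3 * (CJ + |C4|) with hK
  set S1 : ℝ := ∑' w : List Bool, Real.exp (-LL (desc w P) / 2) with hS1
  have hS10 : 0 ≤ S1 := tsum_nonneg fun _ => (Real.exp_pos _).le
  have hK20 : 0 ≤ K2 := by rw [hK2]; positivity
  have hK30 : 0 ≤ K3 := by rw [hK3]; positivity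
  have hK0 : 0 ≤ K := by rw [hK]; positivity
  refine ⟨K * CL * 64 + K3 * S1, by positivity, fun R hR => ?_⟩
  have hRpos : 0 < R := by linarith
  have hlogR : 0 < Real.log R := Real.log_pos (by linarith)
  -- the function F
  set F : List Bool → ℝ := fun w => jpw g w (len (desc w P).1 / R) (len (desc w P).2.1 / R) with hF
  have hFt : ∀ w, F (w ++ [true]) =
      jpw g (w ++ [true]) (len (desc w P).1 / R) (len (desc w P).2.2 / R) := by
    intro w
    simp only [hF, SPW_desc_true, Lm]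
  have hFf : ∀ w, F (w ++ [false]) =
      jpw g (w ++ [false]) (len (desc w P).2.2 / R) (len (desc w P).2.1 / R) := by
    intro w
    simp only [hF, SPW_desc_false, Rm]
  have hpos1 : ∀ w, 0 < len (desc w P).1 := fun w => hc.trans_le (hlb w).1
  have hpos2 : ∀ w, 0 < len (desc w P).2.1 := fun w => hc.trans_le (hlb w).2.1
  have hpos3 : ∀ w, 0 < len (desc w P).2.2 := fun w => hc.trans_le (hlb w).2.2
  have hLLpos : ∀ w, 0 < LL (desc w P) := fun w => add_pos (hpos1 w) (hpos2 w)
  have hp1 : ∀ w, 0 < len (desc w P).1 / R := fun w => div_pos (hpos1 w) hRpos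
  have hp2 : ∀ w, 0 < len (desc w P).2.1 / R := fun w => div_pos (hpos2 w) hRpos
  have hp3 : ∀ w, 0 < len (desc w P).2.2 / R := fun w => div_pos (hpos3 w) hRpos
  have hFfin : {w | F w ≠ 0}.Finite := by
    refine (hcount R hRpos.le).1.subset (fun w hw => ?_)
    simp only [mem_ofPred_eq] at hw ⊢
    by_contra hcon
    push Not at hcon
    apply hw
    refine (hJ w _ _ (hp1 w) (hp2 w)).2.2.1 ?_
    rw [← add_div, le_div_iff₀ hRpos, one_mul]
    exact hcon.le
  have hPfin : (Function.support fun w => pw w * Ph g (len (desc w P).2.2 / R)).Finite := by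
    refine (hcount R hRpos.le).2.2.1.subset (fun w hw => ?_)
    rw [Function.mem_support] at hw
    simp only [mem_ofPred_eq]
    by_contra hcon
    push Not at hcon
    apply hw
    rw [hPh1 _ (by rw [le_div_iff₀ hRpos, one_mul]; exact hcon.le), mul_zero]
  obtain ⟨hTfin, hT⟩ := hTEL F hFfin
  have hTfin' : (Function.support fun w => F (w ++ [true]) + F (w ++ [false]) - F w).Finite := hTfin
  set G : List Bool → ℝ := fun w => pw w * Ph g (len (desc w P).2.2 / R) +
    (F (w ++ [true]) + F (w ++ [false]) - F w) with hGdef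
  have hGfin : (Function.support G).Finite := by
    refine (hPfin.union hTfin').subset ?_
    exact Function.support_add _ _
  have hGsum : ∑ᶠ w, G w = (∑ᶠ w : List Bool, pw w * Ph g (len (desc w P).2.2 / R)) - F [] := by
    have h := finsum_add_distrib hPfin hTfin'
    rw [hT] at h
    rw [sub_eq_add_neg]
    exact h
  have hGt : ∑' w, G w = ∑ᶠ w, G w := tsum_eq_finsum hGfin
  have hGs : Summable G := summable_of_hasFiniteSupport hGfin
  -- the bound for all nodes
  have hexp : ∀ w, Real.exp (-LL (desc w P)) ≤ Real.exp (-LL (desc w P) / 2) := by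
    intro w
    apply Real.exp_le_exp.2
    have := hLLpos w
    linarith
  have hGJs : Summable (fun w => GJ g R (desc w P)) := by
    refine Summable.of_norm_bounded (g := fun w => CG * B * R * Real.exp (-LL (desc w P) / 2))
      (hsum.mul_left _) (fun w => ?_)
    rw [Real.norm_eq_abs]
    refine (hG g B R w hg hB hRpos).trans ?_
    exact mul_le_mul_of_nonneg_left (hexp w) (by positivity)
  have hmll : ∀ w, |len (desc w P).2.2 / R -
      (len (desc w P).1 / R + len (desc w P).2.1 / R)| ≤ Cg * Real.exp (-LL (desc w P)) / R := by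
    intro w
    rw [← add_div, ← sub_div, abs_div, abs_of_pos hRpos, abs_sub_comm]
    exact div_le_div_of_nonneg_right (hgap w) hRpos.le
  have hPhLip : ∀ a b : ℝ, |Ph g a - Ph g b| ≤ Cp * |a - b| := by
    intro a b
    have h := Convex.norm_image_sub_le_of_norm_deriv_le (f := Ph g) (s := univ) (x := b) (y := a)
      (C := Cp) (fun x _ => (hPh.differentiable (by simp)).differentiableAt)
      (fun x _ => by rw [Real.norm_eq_abs]; exact (hphi x).2.2.2) convex_univ (mem_univ _) (mem_univ _)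
    rwa [Real.norm_eq_abs, Real.norm_eq_abs] at h
  have hG2 : ∀ w, |G w| ≤ K2 * R ^ 2 * Real.exp (-LL (desc w P)) := by
    intro w
    set l := len (desc w P).1 / R with hl
    set l' := len (desc w P).2.1 / R with hl'
    set m := len (desc w P).2.2 / R with hm
    set E := Real.exp (-LL (desc w P)) with hE
    have hE0 : 0 < E := Real.exp_pos _
    have hl0 : 0 < l := hp1 w
    have hl'0 : 0 < l' := hp2 w
    have hm0 : 0 < m := hp3 w
    have hrec := (hJ w l l' hl0 hl'0).1
    have hGw : G w = pw w * (Ph g m - Ph g (l + l')) +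
        (jpw g (w ++ [true]) l m - jpw g (w ++ [true]) l (l + l')) +
        (jpw g (w ++ [false]) m l' - jpw g (w ++ [false]) (l + l') l') := by
      simp only [hGdef, hFt, hFf]
      rw [show F w = jpw g w l l' from rfl, hrec]
      ring
    have hinv1 : 1 / l ≤ R / c := by
      rw [hl, one_div_div]
      exact div_le_div_of_nonneg_left hRpos.le hc (hlb w).1
    have hinv2 : 1 / l' ≤ R / c := by
      rw [hl', one_div_div]
      exact div_le_div_of_nonneg_left hRpos.le hc (hlb w).2.1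
    have hinv3 : 1 / m ≤ R / c := by
      rw [hm, one_div_div]
      exact div_le_div_of_nonneg_left hRpos.le hc (hlb w).2.2
    have hinv4 : 1 / (l + l') ≤ R / c := by
      refine le_trans ?_ hinv1
      exact one_div_le_one_div_of_le hl0 (by linarith)
    have hcube : ∀ x y z : ℝ, 0 < x → 0 < y → 0 < z → 1 / x ≤ R / c → 1 / y ≤ R / c →
        1 / z ≤ R / c → (1 + 1 / x + 1 / y + 1 / z) ^ 3 ≤ R ^ 3 * (1 + 3 / c) ^ 3 := by
      intro x y z hx hy hz h1 h2 h3
      rw [← mul_pow]
      have hx' : 0 < 1 / x := by positivity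
      have hy' : 0 < 1 / y := by positivity
      have hz' : 0 < 1 / z := by positivity
      gcongr
      have e : R * (1 + 3 / c) = R + R / c + R / c + R / c := by ring
      rw [e]; linarith
    have hA : |pw w * (Ph g m - Ph g (l + l'))| ≤ 2 * Cp * Cg * R ^ 2 * E := by
      rw [abs_mul]
      have h1 := hPhLip m (l + l')
      have h2 := hmll w
      rw [← hl, ← hl', ← hm, ← hE] at h2
      have h3 : Cg * E / R ≤ Cg * E * R ^ 2 := by
        rw [div_le_iff₀ hRpos]
        have : 1 ≤ R ^ 2 * R := by nlinarith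
        nlinarith [mul_pos hCg hE0]
      calc |pw w| * |Ph g m - Ph g (l + l')| ≤ 2 * (Cp * (Cg * E * R ^ 2)) := by
            refine mul_le_mul (SPW_pw_bd w) (h1.trans ?_) (abs_nonneg _) (by norm_num)
            exact mul_le_mul_of_nonneg_left (h2.trans h3) hCp.le
        _ = _ := by ring
    have hcommon : ∀ X : ℝ, 0 ≤ X → X ≤ R ^ 3 * (1 + 3 / c) ^ 3 →
        CJ * |m - (l + l')| * X ≤ CJ * Cg * (1 + 3 / c) ^ 3 * R ^ 2 * E := by
      intro X hX0 hX
      have h2 := hmll w
      rw [← hl, ← hl', ← hm, ← hE] at h2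
      calc CJ * |m - (l + l')| * X ≤ CJ * (Cg * E / R) * (R ^ 3 * (1 + 3 / c) ^ 3) := by
            gcongr
        _ = _ := by field_simp
    have hBt : |jpw g (w ++ [true]) l m - jpw g (w ++ [true]) l (l + l')| ≤
        CJ * Cg * (1 + 3 / c) ^ 3 * R ^ 2 * E := by
      have h := (hJ (w ++ [true]) l m hl0 hm0).2.2.2.1 (l + l') (by linarith)
      refine h.trans (hcommon _ (by positivity) (hcube _ _ _ hl0 hm0 (by linarith) hinv1 hinv3 hinv4))
    have hCt : |jpw g (w ++ [false]) m l' - jpw g (w ++ [false]) (l + l') l'| ≤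
        CJ * Cg * (1 + 3 / c) ^ 3 * R ^ 2 * E := by
      have h := (hJ (w ++ [false]) m l' hm0 hl'0).2.2.2.2 (l + l') (by linarith)
      refine h.trans (hcommon _ (by positivity) (hcube _ _ _ hm0 hl'0 (by linarith) hinv3 hinv2 hinv4))
    rw [hGw]
    refine (abs_add_three _ _ _).trans ?_
    rw [hK2]
    nlinarith [hA, hBt, hCt]
  have hD3 : ∀ w, |G w - GJ g R (desc w P)| ≤ K3 * R ^ 2 * Real.exp (-LL (desc w P)) := by
    intro w
    refine (abs_sub _ _).trans ?_
    have h1 := hG2 w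
    have h2 := hG g B R w hg hB hRpos
    have hE0 : 0 < Real.exp (-LL (desc w P)) := Real.exp_pos _
    have h3 : CG * B * R * Real.exp (-LL (desc w P)) ≤
        CG * B * R ^ 2 * Real.exp (-LL (desc w P)) := by
      have : R ≤ R ^ 2 := by nlinarith
      gcongr
    rw [hK3]
    nlinarith
  -- the set of small nodes
  have hT0 : 0 ≤ 8 * Real.log R := by linarith
  have hfin := (hcount (8 * Real.log R) hT0).1
  have hcard := (hcount (8 * Real.log R) hT0).2.1
  have hsmall : ∀ w, LL (desc w P) ≤ 8 * Real.log R → |G w - GJ g R (desc w P)| ≤ K := by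
    intro w hw
    by_cases hRR : R ≤ R0
    · refine (hD3 w).trans ?_
      have h1 : Real.exp (-LL (desc w P)) ≤ 1 := by
        rw [Real.exp_le_one_iff]
        have := hLLpos w
        linarith
      have h2 : K3 * R ^ 2 * Real.exp (-LL (desc w P)) ≤ K3 * R0 ^ 2 * 1 := by
        have : 0 < Real.exp (-LL (desc w P)) := Real.exp_pos _
        gcongr
      rw [hK]
      have := abs_nonneg C4
      linarith
    · push Not at hRR
      have hlim := hR0 R hRR.le
      set l := len (desc w P).1 / R with hl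
      set l' := len (desc w P).2.1 / R with hl'
      set m := len (desc w P).2.2 / R with hm
      have hl0 : 0 < l := hp1 w
      have hl'0 : 0 < l' := hp2 w
      have hm0 : 0 < m := hp3 w
      have hMle : len (desc w P).2.2 ≤ LL (desc w P) + CL := by
        have := (abs_le.1 (hLLM w)).1
        linarith
      have hLLe : LL (desc w P) = len (desc w P).1 + len (desc w P).2.1 := rfl
      have q1 := hpos1 w
      have q2 := hpos2 w
      have q3 := hpos3 w
      rw [div_le_iff₀ hRpos] at hlim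
      have s1 : l + m ≤ 1 / 9 := by
        rw [hl, hm, ← add_div, div_le_iff₀ hRpos]; linarith
      have s2 : m + l' ≤ 1 / 9 := by
        rw [hl', hm, ← add_div, div_le_iff₀ hRpos]; linarith
      have s3 : l + l' ≤ 1 / 9 := by
        rw [hl, hl', ← add_div, div_le_iff₀ hRpos]; linarith
      have t1 : ∀ (v : List Bool) (a b : ℝ), 0 < a → 0 < b → a + b ≤ 1 / 9 →
          |jpw g v a b - jj g a b| ≤ CJ + |C4| := by
        intro v a b ha hb hab
        have h1 := (hJ v a b ha hb).2.1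
        have h2 := hC4 a b ha hb hab
        have e : jpw g v a b - jj g a b = (jpw g v a b - jp g a b) - (jj g a b - jp g a b) := by ring
        rw [e]
        exact (abs_sub _ _).trans (add_le_add h1 (h2.trans (le_abs_self _)))
      have u1 := t1 (w ++ [true]) l m hl0 hm0 s1
      have u2 := t1 (w ++ [false]) m l' hm0 hl'0 s2
      have u3 := t1 w l l' hl0 hl'0 s3
      have u4 : |pw w * Ph g m| ≤ 2 * Cp := by
        rw [abs_mul]
        exact mul_le_mul (SPW_pw_bd w) (hphi m).2.2.1 (abs_nonneg _) (by norm_num)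
      have e : G w - GJ g R (desc w P) = pw w * Ph g m +
          (jpw g (w ++ [true]) l m - jj g l m) + (jpw g (w ++ [false]) m l' - jj g m l') -
          (jpw g w l l' - jj g l l') := by
        simp only [hGdef, hFt, hFf, GJ]
        rw [show F w = jpw g w l l' from rfl]
        ring
      rw [e]
      have v1 := abs_le.1 u1
      have v2 := abs_le.1 u2
      have v3 := abs_le.1 u3
      have v4 := abs_le.1 u4
      have hKge : 2 * Cp + 3 * (CJ + |C4|) ≤ K := by
        rw [hK]
        have : 0 ≤ K3 * R0 ^ 2 := by positivity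
        linarith
      rw [abs_le]
      constructor <;> linarith [v1.1, v1.2, v2.1, v2.2, v3.1, v3.2, v4.1, v4.2]
  have hlarge : ∀ w, 8 * Real.log R < LL (desc w P) →
      |G w - GJ g R (desc w P)| ≤ K3 * Real.exp (-LL (desc w P) / 2) := by
    intro w hw
    refine (hD3 w).trans ?_
    have h1 : R ^ 2 = Real.exp (2 * Real.log R) := by
      rw [two_mul, Real.exp_add, Real.exp_log hRpos]; ring
    have h2 : R ^ 2 * Real.exp (-LL (desc w P)) ≤ Real.exp (-LL (desc w P) / 2) := by
      rw [h1, ← Real.exp_add]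
      apply Real.exp_le_exp.2
      linarith
    calc K3 * R ^ 2 * Real.exp (-LL (desc w P)) = K3 * (R ^ 2 * Real.exp (-LL (desc w P))) := by ring
      _ ≤ _ := mul_le_mul_of_nonneg_left h2 hK30
  classical
  have hall : ∀ w, ‖G w - GJ g R (desc w P)‖ ≤
      (if w ∈ hfin.toFinset then K else 0) + K3 * Real.exp (-LL (desc w P) / 2) := by
    intro w
    rw [Real.norm_eq_abs]
    by_cases hw : LL (desc w P) ≤ 8 * Real.log R
    · have hmem : w ∈ hfin.toFinset := by
        rw [Set.Finite.mem_toFinset]; exact hw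
      rw [if_pos hmem]
      have := hsmall w hw
      have h2 : 0 ≤ K3 * Real.exp (-LL (desc w P) / 2) := by positivity
      linarith
    · have hmem : w ∉ hfin.toFinset := by
        rw [Set.Finite.mem_toFinset]; exact hw
      rw [if_neg hmem, zero_add]
      exact hlarge w (not_le.1 hw)
  have hs1 : HasSum (fun w : List Bool => if w ∈ hfin.toFinset then K else 0)
      (∑ w ∈ hfin.toFinset, if w ∈ hfin.toFinset then K else 0) :=
    hasSum_sum_of_ne_finset_zero (fun w hw => if_neg hw)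
  have hs1' : (∑ w ∈ hfin.toFinset, if w ∈ hfin.toFinset then K else 0) =
      ({w : List Bool | LL (desc w P) ≤ 8 * Real.log R}.ncard : ℝ) * K := by
    rw [Finset.sum_congr rfl (fun w hw => if_pos hw), Finset.sum_const, nsmul_eq_mul,
      Set.ncard_eq_toFinset_card _ hfin]
  have hs2 : HasSum (fun w : List Bool => K3 * Real.exp (-LL (desc w P) / 2)) (K3 * S1) :=
    hsum.hasSum.mul_left _
  have hmain := tsum_of_norm_bounded (hs1.add hs2) hall
  rw [hs1', Summable.tsum_sub hGs hGJs, hGt, hGsum, Real.norm_eq_abs] at hmain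
  have hF0 : F [] = jpw g [] (len P.1 / R) (len P.2.1 / R) := rfl
  rw [hF0] at hmain
  have hre : (∑ᶠ w : List Bool, pw w * Ph g (len (desc w P).2.2 / R)) -
        (∑' w : List Bool, GJ g R (desc w P)) - jpw g [] (len P.1 / R) (len P.2.1 / R) =
      (∑ᶠ w : List Bool, pw w * Ph g (len (desc w P).2.2 / R)) -
        jpw g [] (len P.1 / R) (len P.2.1 / R) - ∑' w : List Bool, GJ g R (desc w P) := by ring
  rw [hre]
  refine hmain.trans ?_
  have h1 : (1 + 8 * Real.log R) ^ 2 ≤ 64 * (1 + Real.log R) ^ 2 := by nlinarith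
  have h2 : 1 ≤ (1 + Real.log R) ^ 2 := by nlinarith
  have h3 : ({w : List Bool | LL (desc w P) ≤ 8 * Real.log R}.ncard : ℝ) * K ≤
      (CL * (64 * (1 + Real.log R) ^ 2)) * K := by
    refine mul_le_mul_of_nonneg_right (hcard.trans ?_) hK0
    exact mul_le_mul_of_nonneg_left h1 hCL.le
  have h4 : K3 * S1 ≤ K3 * S1 * (1 + Real.log R) ^ 2 :=
    le_mul_of_one_le_right (by positivity) h2
  calc _ ≤ (CL * (64 * (1 + Real.log R) ^ 2)) * K + K3 * S1 * (1 + Real.log R) ^ 2 :=
        add_le_add h3 h4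
    _ = _ := by ring

theorem SPW (hTEL : TEL_stmt) (hJW : JW_stmt) (hJ4 : J4_stmt) (hJB : JB_stmt) (hGJB : GJB_stmt)
    (hLB : LB_stmt) (hGAP : GAP_stmt) (hSUM : SUM_stmt) (hPHI : PHI_stmt) : SPW_stmt := by
  intro g P hg hP
  obtain ⟨C1, hC1, h1⟩ := SPW_cone hTEL hJW hJ4 hGJB hLB hGAP hSUM hPHI g P hg hP
  obtain ⟨C2, hC2, h2⟩ := SPW_cone hTEL hJW hJ4 hGJB hLB hGAP hSUM hPHI g (Tw P) hg hP.Tw
  obtain ⟨CJ, hCJ, hJ⟩ := hJW g hg
  obtain ⟨C4, hC4⟩ := hJ4 g hg
  obtain ⟨B, hB0, hB⟩ := SPW_bd g hg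
  obtain ⟨CB, hCB, hJB'⟩ := hJB
  have hL1 : 0 < len P.1 := len_pos hP.x2
  have hL2 : 0 < len P.2.1 := len_pos hP.y2
  set R0 : ℝ := max 2 (9 * (len P.1 + len P.2.1)) with hR0
  have hR0pos : 0 < R0 := lt_of_lt_of_le (by norm_num) (le_max_left _ _)
  set K : ℝ := 2 * (CJ + |C4|) +
    2 * (CJ * (2 + R0 / len P.1 + R0 / len P.2.1) ^ 3) with hK
  have hK0 : 0 ≤ K := by rw [hK]; positivity
  refine ⟨C1 + C2 + K, fun R hR => ?_⟩
  have hRpos : 0 < R := by linarith
  have hlogR : 0 < Real.log R := Real.log_pos (by linarith)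
  have e1 := h1 R hR
  have e2 := h2 R hR
  have hTw1 : (Tw P).1 = P.2.1 := rfl
  have hTw2 : (Tw P).2.1 = P.1 := rfl
  rw [hTw1, hTw2] at e2
  set l := len P.1 / R with hl
  set l' := len P.2.1 / R with hl'
  have hl0 : 0 < l := div_pos hL1 hRpos
  have hl'0 : 0 < l' := div_pos hL2 hRpos
  have hroot : |jpw g [] l l' + jpw g [] l' l| ≤ K := by
    by_cases hRR : R0 ≤ R
    · have hs : l + l' ≤ 1 / 9 := by
        rw [hl, hl', ← add_div, div_le_iff₀ hRpos]
        have := (le_max_right 2 (9 * (len P.1 + len P.2.1))).trans hRR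
        linarith
      have t1 : ∀ (v : List Bool) (a b : ℝ), 0 < a → 0 < b → a + b ≤ 1 / 9 →
          |jpw g v a b - jj g a b| ≤ CJ + |C4| := by
        intro v a b ha hb hab
        have h1 := (hJ v a b ha hb).2.1
        have h2 := hC4 a b ha hb hab
        have e : jpw g v a b - jj g a b = (jpw g v a b - jp g a b) - (jj g a b - jp g a b) := by ring
        rw [e]
        exact (abs_sub _ _).trans (add_le_add h1 (h2.trans (le_abs_self _)))
      have u1 := t1 [] l l' hl0 hl'0 hs
      have u2 := t1 [] l' l hl'0 hl0 (by linarith)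
      have u3 := (hJB' g B hg hB l l' hl0 hl'0).2.1
      have e : jpw g [] l l' + jpw g [] l' l =
          (jpw g [] l l' - jj g l l') + (jpw g [] l' l - jj g l' l) := by rw [u3]; ring
      rw [e]
      refine (abs_add_le _ _).trans ?_
      have : 0 ≤ CJ * (2 + R0 / len P.1 + R0 / len P.2.1) ^ 3 := by positivity
      rw [hK]
      linarith
    · push Not at hRR
      have hJ' : ∀ (w : List Bool) (l l' : ℝ), 0 < l → 0 < l' →
          (1 ≤ l + l' → jpw g w l l' = 0) ∧
          ∀ m : ℝ, 0 < m → |jpw g w l l' - jpw g w l m| ≤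
            CJ * |l' - m| * (1 + 1 / l + 1 / l' + 1 / m) ^ 3 := fun w l l' hl hl' =>
        ⟨(hJ w l l' hl hl').2.2.1, (hJ w l l' hl hl').2.2.2.1⟩
      have i1 : 1 / l ≤ R0 / len P.1 := by
        rw [hl, one_div_div]
        exact div_le_div_of_nonneg_right hRR.le hL1.le
      have i2 : 1 / l' ≤ R0 / len P.2.1 := by
        rw [hl', one_div_div]
        exact div_le_div_of_nonneg_right hRR.le hL2.le
      have i3 : 0 < 1 / l := by positivity
      have i4 : 0 < 1 / l' := by positivity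
      have u1 := SPW_jpw_bd g CJ hCJ hJ' [] l l' hl0 hl'0
      have u2 := SPW_jpw_bd g CJ hCJ hJ' [] l' l hl'0 hl0
      have v1 : CJ * (2 + 1 / l + 1 / l') ^ 3 ≤ CJ * (2 + R0 / len P.1 + R0 / len P.2.1) ^ 3 := by
        gcongr
      have v2 : CJ * (2 + 1 / l' + 1 / l) ^ 3 ≤ CJ * (2 + R0 / len P.1 + R0 / len P.2.1) ^ 3 := by
        have : 2 + 1 / l' + 1 / l = 2 + 1 / l + 1 / l' := by ring
        rw [this]; exact v1
      refine (abs_add_le _ _).trans ?_
      have : 0 ≤ CJ + |C4| := by positivity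
      rw [hK]
      linarith
  have hone : 1 ≤ (1 + Real.log R) ^ 2 := by nlinarith
  have hKle : K ≤ K * (1 + Real.log R) ^ 2 := le_mul_of_one_le_right hK0 hone
  have hfinal : Sp g P R - Sw g P R =
      ((∑ᶠ w : List Bool, pw w * Ph g (len (desc w P).2.2 / R)) -
        (∑' w : List Bool, GJ g R (desc w P)) - jpw g [] l l') +
      ((∑ᶠ w : List Bool, pw w * Ph g (len (desc w (Tw P)).2.2 / R)) -
        (∑' w : List Bool, GJ g R (desc w (Tw P))) - jpw g [] l' l) +
      (jpw g [] l l' + jpw g [] l' l) := by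
    unfold Sp Sw
    ring
  rw [hfinal]
  refine (abs_add_three _ _ _).trans ?_
  calc _ ≤ C1 * (1 + Real.log R) ^ 2 + C2 * (1 + Real.log R) ^ 2 + K * (1 + Real.log R) ^ 2 :=
        add_le_add (add_le_add e1 e2) (hroot.trans hKle)
    _ = _ := by ring

end SF
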