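import Pool.Agent.helper1.SF.SpecA

/-!
Module sa:KDA of project SF (MP_d52931_gt): bounds of the kernel by the Abel integral.
-/

set_option autoImplicit false

namespace SF

open MeasureTheory Set Filter Topology
open scoped ContDiff

/-- differentiation under the integral sign -/
lemma KDA_diff (F F' : ℝ → ℝ → ℝ) (x0 δ a b : ℝ) (hδ : 0 < δ) (hab : a ≤ b)
    (hF : ∀ x ∈ Metric.ball x0 δ, ContinuousOn (F x) (Icc a b))
    (hF' : ContinuousOn (fun p : ℝ × ℝ => F' p.1 p.2) (Metric.closedBall x0 δ ×ˢ Icc a b))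
    (hd : ∀ x ∈ Metric.ball x0 δ, ∀ t ∈ Icc a b, HasDerivAt (fun x => F x t) (F' x t) x) :
    HasDerivAt (fun x => ∫ t in a..b, F x t) (∫ t in a..b, F' x0 t) x0 := by
  have hx0 : x0 ∈ Metric.ball x0 δ := Metric.mem_ball_self hδ
  obtain ⟨C, hC⟩ :=
    ((isCompact_closedBall x0 δ).prod isCompact_Icc).exists_bound_of_continuousOn hF'
  have hcont : ContinuousOn (F' x0) (Icc a b) := by
    have h1 : ContinuousOn (fun t : ℝ => (x0, t)) (Icc a b) := by fun_prop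
    exact hF'.comp h1 (fun t ht => ⟨Metric.mem_closedBall_self hδ.le, ht⟩)
  refine (intervalIntegral.hasDerivAt_integral_of_dominated_loc_of_deriv_le
    (bound := fun _ => C) (Metric.ball_mem_nhds x0 hδ) ?_ ?_ ?_ ?_ ?_ ?_).2
  · filter_upwards [Metric.ball_mem_nhds x0 hδ] with x hx
    rw [uIoc_of_le hab]
    exact ((hF x hx).mono Ioc_subset_Icc_self).aestronglyMeasurable measurableSet_Ioc
  · exact (hF x0 hx0).intervalIntegrable_of_Icc hab
  · rw [uIoc_of_le hab]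
    exact (hcont.mono Ioc_subset_Icc_self).aestronglyMeasurable measurableSet_Ioc
  · refine Eventually.of_forall fun t ht x hx => ?_
    rw [uIoc_of_le hab] at ht
    exact hC (x, t) ⟨Metric.ball_subset_closedBall hx, Ioc_subset_Icc_self ht⟩
  · exact intervalIntegrable_const
  · refine Eventually.of_forall fun t ht x hx => ?_
    rw [uIoc_of_le hab] at ht
    exact hd x hx t (Ioc_subset_Icc_self ht)

lemma KDA_gc {g : ℝ → ℝ} (hg : Pg g) : Continuous g := hg.1.smooth.continuous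

lemma KDA_gd {g : ℝ → ℝ} (hg : Pg g) (x : ℝ) : HasDerivAt g (deriv g x) x :=
  (hg.1.smooth.differentiable (by simp)).differentiableAt.hasDerivAt

lemma KDA_gc' {g : ℝ → ℝ} (hg : Pg g) : Continuous (deriv g) :=
  hg.1.smooth.continuous_deriv (by exact_mod_cast le_top)

lemma KDA_supp {g : ℝ → ℝ} (hg : Pg g) {x : ℝ} (hx : deriv g x ≠ 0) : 1 ≤ x ∧ x ≤ 2 := by
  constructor
  · by_contra hcon
    push Not at hcon
    apply hx
    have h1 : g =ᶠ[𝓝 x] fun _ => 0 := by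
      filter_upwards [Iio_mem_nhds hcon] with y hy
      exact hg.1.lo y (le_of_lt hy)
    rw [h1.deriv_eq]
    simp
  · by_contra hcon
    push Not at hcon
    apply hx
    have h1 : g =ᶠ[𝓝 x] fun _ => 0 := by
      filter_upwards [Ioi_mem_nhds hcon] with y hy
      exact hg.2 y (le_of_lt hy)
    rw [h1.deriv_eq]
    simp

lemma KDA_T {A a τ : ℝ} (hA : 0 < A) (ha : A / 2 ≤ a) (hτ : 1 + 6 / A ≤ τ) :
    2 ≤ a * (1 + τ ^ 2) := by
  have h1 : 0 < 6 / A := by positivity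
  have h2 : 12 / A ≤ τ ^ 2 := by
    have h3 : 12 / A = 2 * (6 / A) := by ring
    rw [h3]
    nlinarith
  have h4 : A / 2 * (12 / A) = 6 := by field_simp; norm_num
  have h5 : A / 2 * (12 / A) ≤ a * (1 + τ ^ 2) := by
    have h6 : 0 < 12 / A := by positivity
    apply mul_le_mul ha (by linarith) h6.le (by linarith)
  linarith

lemma KDA_pos {c τ : ℝ} (hc : 0 < c) : 0 < τ ^ 2 + c ^ 2 := by positivity

/-- the formula of KFA as an integral over a bounded interval -/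
lemma KDA_form (hKFA : KFA_stmt) {g : ℝ → ℝ} (hg : Pg g) {A a c : ℝ} (hA : 0 < A)
    (ha : A / 2 ≤ a) (hc : 0 < c) (hac : a * (1 - c ^ 2) ≤ 1) :
    NN g a c = ∫ τ in (0 : ℝ)..(1 + 6 / A), c / (τ ^ 2 + c ^ 2) * g (a * (1 + τ ^ 2)) := by
  have ha0 : 0 < a := by linarith
  have hT : (0 : ℝ) ≤ 1 + 6 / A := by positivity
  rw [hKFA g hg.1 a c ha0 hc, hg.1.lo _ hac, mul_zero, sub_zero,
    intervalIntegral.integral_of_le hT]
  apply setIntegral_eq_of_subset_of_forall_sdiff_eq_zero measurableSet_Ioi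
  · intro x hx; exact hx.1
  · intro x hx
    have hx2 : 1 + 6 / A ≤ x := by
      by_contra hcon
      push Not at hcon
      exact hx.2 ⟨hx.1, hcon.le⟩
    rw [hg.2 _ (KDA_T hA ha hx2), mul_zero]

lemma KDA_hd1 (τ x : ℝ) (hx : 0 < x) :
    HasDerivAt (fun x : ℝ => x / (τ ^ 2 + x ^ 2)) ((τ ^ 2 - x ^ 2) / (τ ^ 2 + x ^ 2) ^ 2) x := by
  have h1 : HasDerivAt (fun x : ℝ => τ ^ 2 + x ^ 2) (2 * x) x := by
    have := (hasDerivAt_pow 2 x).const_add (τ ^ 2)
    simpa using this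
  have h2 := (hasDerivAt_id x).div h1 (KDA_pos hx).ne'
  have h3 : HasDerivAt (fun x : ℝ => x / (τ ^ 2 + x ^ 2))
      ((1 * (τ ^ 2 + x ^ 2) - id x * (2 * x)) / (τ ^ 2 + x ^ 2) ^ 2) x := h2
  convert h3 using 1
  simp only [id]
  congr 1
  ring

/-- the first derivative in `c` -/
lemma KDA_Nc (hKFA : KFA_stmt) {g : ℝ → ℝ} (hg : Pg g) {A a c : ℝ} (hA : 0 < A)
    (ha : A / 2 ≤ a) (hc : 0 < c) (hac : a * (1 - c ^ 2) < 1) :
    HasDerivAt (fun t => NN g a t) (∫ τ in (0 : ℝ)..(1 + 6 / A),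
      (τ ^ 2 - c ^ 2) / (τ ^ 2 + c ^ 2) ^ 2 * g (a * (1 + τ ^ 2))) c := by
  have hT : (0 : ℝ) ≤ 1 + 6 / A := by positivity
  have hgc := KDA_gc hg
  have h1 : HasDerivAt (fun t => ∫ τ in (0 : ℝ)..(1 + 6 / A),
      t / (τ ^ 2 + t ^ 2) * g (a * (1 + τ ^ 2))) (∫ τ in (0 : ℝ)..(1 + 6 / A),
      (τ ^ 2 - c ^ 2) / (τ ^ 2 + c ^ 2) ^ 2 * g (a * (1 + τ ^ 2))) c := by
    apply KDA_diff (fun t τ => t / (τ ^ 2 + t ^ 2) * g (a * (1 + τ ^ 2)))
      (fun t τ => (τ ^ 2 - t ^ 2) / (τ ^ 2 + t ^ 2) ^ 2 * g (a * (1 + τ ^ 2))) c (c / 2) 0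
      (1 + 6 / A) (by positivity) hT
    · intro x hx
      rw [Metric.mem_ball, Real.dist_eq, abs_lt] at hx
      have hx0 : 0 < x := by linarith [hx.1]
      apply Continuous.continuousOn
      refine Continuous.mul ?_ (by fun_prop)
      exact continuous_const.div (by fun_prop) (fun τ => (KDA_pos hx0).ne')
    · apply ContinuousOn.mul
      · apply ContinuousOn.div (by fun_prop) (by fun_prop)
        intro p hp
        have h2 := hp.1
        rw [Metric.mem_closedBall, Real.dist_eq, abs_le] at h2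
        have hx0 : 0 < p.1 := by linarith [h2.1]
        have := KDA_pos (τ := p.2) hx0
        positivity
      · apply Continuous.continuousOn
        fun_prop
    · intro x hx t _
      rw [Metric.mem_ball, Real.dist_eq, abs_lt] at hx
      have hx0 : 0 < x := by linarith [hx.1]
      exact (KDA_hd1 t x hx0).mul_const _
  refine h1.congr_of_eventuallyEq ?_
  have h2 : ∀ᶠ t in 𝓝 c, 0 < t ∧ a * (1 - t ^ 2) < 1 := by
    apply Filter.Eventually.and (Ioi_mem_nhds hc)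
    have h3 : ContinuousAt (fun t : ℝ => a * (1 - t ^ 2)) c := by fun_prop
    exact h3.eventually_lt_const hac
  filter_upwards [h2] with t ht
  exact KDA_form hKFA hg hA ha ht.1 ht.2.le

/-- integration by parts -/
lemma KDA_parts1 {g : ℝ → ℝ} (hg : Pg g) {A a c : ℝ} (hA : 0 < A) (ha : A / 2 ≤ a) (hc : 0 < c) :
    ∫ τ in (0 : ℝ)..(1 + 6 / A), (τ ^ 2 - c ^ 2) / (τ ^ 2 + c ^ 2) ^ 2 * g (a * (1 + τ ^ 2)) =
    ∫ τ in (0 : ℝ)..(1 + 6 / A), 2 * a * τ ^ 2 / (τ ^ 2 + c ^ 2) * deriv g (a * (1 + τ ^ 2)) := by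
  have hgc := KDA_gc hg
  have hgc' := KDA_gc' hg
  have c1 : Continuous (fun τ : ℝ => (τ ^ 2 - c ^ 2) / (τ ^ 2 + c ^ 2) ^ 2 * g (a * (1 + τ ^ 2))) := by
    refine Continuous.mul ?_ (by fun_prop)
    exact Continuous.div (by fun_prop) (by fun_prop) (fun τ => by have := KDA_pos (τ := τ) hc; positivity)
  have c2 : Continuous (fun τ : ℝ => 2 * a * τ ^ 2 / (τ ^ 2 + c ^ 2) * deriv g (a * (1 + τ ^ 2))) := by
    refine Continuous.mul ?_ (by fun_prop)
    exact Continuous.div (by fun_prop) (by fun_prop) (fun τ => (KDA_pos hc).ne')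
  have h1 : ∀ τ ∈ uIcc (0 : ℝ) (1 + 6 / A), HasDerivAt
      (fun τ : ℝ => -(τ / (τ ^ 2 + c ^ 2)) * g (a * (1 + τ ^ 2)))
      ((τ ^ 2 - c ^ 2) / (τ ^ 2 + c ^ 2) ^ 2 * g (a * (1 + τ ^ 2)) -
        2 * a * τ ^ 2 / (τ ^ 2 + c ^ 2) * deriv g (a * (1 + τ ^ 2))) τ := by
    intro τ _
    have e1 : HasDerivAt (fun x : ℝ => x ^ 2 + c ^ 2) (2 * τ) τ := by
      have := (hasDerivAt_pow 2 τ).add_const (c ^ 2)
      simpa using this
    have e2 := ((hasDerivAt_id τ).fun_div e1 (KDA_pos hc).ne').fun_neg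
    have e3 : HasDerivAt (fun τ : ℝ => a * (1 + τ ^ 2)) (a * (2 * τ)) τ := by
      have := ((hasDerivAt_pow 2 τ).const_add 1).const_mul a
      simpa using this
    have e4 : HasDerivAt (fun τ : ℝ => g (a * (1 + τ ^ 2))) (deriv g (a * (1 + τ ^ 2)) * (a * (2 * τ))) τ :=
      HasDerivAt.comp (h₂ := g) (h := fun τ : ℝ => a * (1 + τ ^ 2)) τ (KDA_gd hg _) e3
    have e5 := e2.fun_mul e4
    refine HasDerivAt.congr_deriv (f' := _) e5 ?_
    have := KDA_pos (τ := τ) hc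
    simp only [id]
    field_simp
    ring
  have h2 := intervalIntegral.integral_eq_sub_of_hasDerivAt h1
    ((c1.sub c2).intervalIntegrable _ _)
  rw [intervalIntegral.integral_sub (c1.intervalIntegrable _ _) (c2.intervalIntegrable _ _),
    hg.2 _ (KDA_T hA ha le_rfl)] at h2
  simp only [mul_zero, zero_div, neg_zero, zero_mul, sub_zero] at h2
  linarith

lemma KDA_parts0 {g : ℝ → ℝ} (hg : Pg g) {A a c : ℝ} (hA : 0 < A) (ha : A / 2 ≤ a) (hc : 0 < c) :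
    ∫ τ in (0 : ℝ)..(1 + 6 / A), c / (τ ^ 2 + c ^ 2) * g (a * (1 + τ ^ 2)) =
    ∫ τ in (0 : ℝ)..(1 + 6 / A), (-(Real.arctan (τ / c) * (2 * a * τ))) *
      deriv g (a * (1 + τ ^ 2)) := by
  have hgc := KDA_gc hg
  have hgc' := KDA_gc' hg
  have c1 : Continuous (fun τ : ℝ => c / (τ ^ 2 + c ^ 2) * g (a * (1 + τ ^ 2))) := by
    refine Continuous.mul ?_ (by fun_prop)
    exact Continuous.div (by fun_prop) (by fun_prop) (fun τ => (KDA_pos hc).ne')
  have c2 : Continuous (fun τ : ℝ => (-(Real.arctan (τ / c) * (2 * a * τ))) *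
      deriv g (a * (1 + τ ^ 2))) := by
    refine Continuous.mul ?_ (by fun_prop)
    exact (((Real.continuous_arctan.comp (by fun_prop)).mul (by fun_prop)).neg)
  have h1 : ∀ τ ∈ uIcc (0 : ℝ) (1 + 6 / A), HasDerivAt
      (fun τ : ℝ => Real.arctan (τ / c) * g (a * (1 + τ ^ 2)))
      (c / (τ ^ 2 + c ^ 2) * g (a * (1 + τ ^ 2)) -
        (-(Real.arctan (τ / c) * (2 * a * τ))) * deriv g (a * (1 + τ ^ 2))) τ := by
    intro τ _
    have e1 := ((hasDerivAt_id τ).div_const c).arctan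
    have e3 : HasDerivAt (fun τ : ℝ => a * (1 + τ ^ 2)) (a * (2 * τ)) τ := by
      have := ((hasDerivAt_pow 2 τ).const_add 1).const_mul a
      simpa using this
    have e4 : HasDerivAt (fun τ : ℝ => g (a * (1 + τ ^ 2))) (deriv g (a * (1 + τ ^ 2)) * (a * (2 * τ))) τ :=
      HasDerivAt.comp (h₂ := g) (h := fun τ : ℝ => a * (1 + τ ^ 2)) τ (KDA_gd hg _) e3
    have e5 := e1.fun_mul e4
    refine HasDerivAt.congr_deriv (f' := _) e5 ?_
    have := KDA_pos (τ := τ) hc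
    simp only [id]
    have h6 : 1 + (τ / c) ^ 2 = (τ ^ 2 + c ^ 2) / c ^ 2 := by field_simp; ring
    rw [h6]
    field_simp
    ring
  have h2 := intervalIntegral.integral_eq_sub_of_hasDerivAt h1
    ((c1.sub c2).intervalIntegrable _ _)
  rw [intervalIntegral.integral_sub (c1.intervalIntegrable _ _) (c2.intervalIntegrable _ _),
    hg.2 _ (KDA_T hA ha le_rfl)] at h2
  simp only [mul_zero, zero_div, Real.arctan_zero, zero_mul, sub_zero] at h2
  linarith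

/-- the second derivative in `c` -/
lemma KDA_Ncc (hKFA : KFA_stmt) {g : ℝ → ℝ} (hg : Pg g) {A c : ℝ} (hA : 0 < A)
    (hc : 0 < c) (hac : A * (1 - c ^ 2) < 1) :
    HasDerivAt (fun t => deriv (fun u => NN g A u) t) (∫ τ in (0 : ℝ)..(1 + 6 / A),
      (-(4 * A * τ ^ 2 * c / (τ ^ 2 + c ^ 2) ^ 2)) * deriv g (A * (1 + τ ^ 2))) c := by
  have hT : (0 : ℝ) ≤ 1 + 6 / A := by positivity
  have hgc' := KDA_gc' hg
  have h1 : HasDerivAt (fun t => ∫ τ in (0 : ℝ)..(1 + 6 / A),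
      2 * A * τ ^ 2 / (τ ^ 2 + t ^ 2) * deriv g (A * (1 + τ ^ 2))) (∫ τ in (0 : ℝ)..(1 + 6 / A),
      (-(4 * A * τ ^ 2 * c / (τ ^ 2 + c ^ 2) ^ 2)) * deriv g (A * (1 + τ ^ 2))) c := by
    apply KDA_diff (fun t τ => 2 * A * τ ^ 2 / (τ ^ 2 + t ^ 2) * deriv g (A * (1 + τ ^ 2)))
      (fun t τ => (-(4 * A * τ ^ 2 * t / (τ ^ 2 + t ^ 2) ^ 2)) * deriv g (A * (1 + τ ^ 2))) c
      (c / 2) 0 (1 + 6 / A) (by positivity) hT
    · intro x hx
      rw [Metric.mem_ball, Real.dist_eq, abs_lt] at hx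
      have hx0 : 0 < x := by linarith [hx.1]
      apply Continuous.continuousOn
      refine Continuous.mul ?_ (by fun_prop)
      exact Continuous.div (by fun_prop) (by fun_prop) (fun τ => (KDA_pos hx0).ne')
    · apply ContinuousOn.mul
      · apply ContinuousOn.neg
        apply ContinuousOn.div (by fun_prop) (by fun_prop)
        intro p hp
        have h2 := hp.1
        rw [Metric.mem_closedBall, Real.dist_eq, abs_le] at h2
        have hx0 : 0 < p.1 := by linarith [h2.1]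
        have := KDA_pos (τ := p.2) hx0
        positivity
      · apply Continuous.continuousOn
        fun_prop
    · intro x hx t _
      rw [Metric.mem_ball, Real.dist_eq, abs_lt] at hx
      have hx0 : 0 < x := by linarith [hx.1]
      have e1 : HasDerivAt (fun x : ℝ => t ^ 2 + x ^ 2) (2 * x) x := by
        have := (hasDerivAt_pow 2 x).const_add (t ^ 2)
        simpa using this
      have e2 := (hasDerivAt_const x (2 * A * t ^ 2)).fun_div e1 (KDA_pos hx0).ne'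
      have e3 := e2.mul_const (deriv g (A * (1 + t ^ 2)))
      have e4 : HasDerivAt
          (fun x : ℝ => 2 * A * t ^ 2 / (t ^ 2 + x ^ 2) * deriv g (A * (1 + t ^ 2)))
          ((-(4 * A * t ^ 2 * x / (t ^ 2 + x ^ 2) ^ 2)) * deriv g (A * (1 + t ^ 2))) x := by
        refine HasDerivAt.congr_deriv (f' := _) e3 ?_
        ring
      exact e4
  refine h1.congr_of_eventuallyEq ?_
  have h2 : ∀ᶠ t in 𝓝 c, 0 < t ∧ A * (1 - t ^ 2) < 1 := by
    apply Filter.Eventually.and (Ioi_mem_nhds hc)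
    have h3 : ContinuousAt (fun t : ℝ => A * (1 - t ^ 2)) c := by fun_prop
    exact h3.eventually_lt_const hac
  filter_upwards [h2] with t ht
  rw [(KDA_Nc hKFA hg hA (by linarith) ht.1 ht.2).deriv]
  exact KDA_parts1 hg hA (by linarith) ht.1

lemma KDA_gA {g : ℝ → ℝ} (hg : Pg g) (τ a : ℝ) :
    HasDerivAt (fun a : ℝ => g (a * (1 + τ ^ 2))) ((1 + τ ^ 2) * deriv g (a * (1 + τ ^ 2))) a := by
  have e3 : HasDerivAt (fun a : ℝ => a * (1 + τ ^ 2)) (1 * (1 + τ ^ 2)) a :=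
    (hasDerivAt_id a).mul_const _
  have e4 : HasDerivAt (fun a : ℝ => g (a * (1 + τ ^ 2)))
      (deriv g (a * (1 + τ ^ 2)) * (1 * (1 + τ ^ 2))) a :=
    HasDerivAt.comp (h₂ := g) (h := fun a : ℝ => a * (1 + τ ^ 2)) a (KDA_gd hg _) e3
  convert e4 using 1
  ring

/-- differentiation in `A` for a continuous weight -/
lemma KDA_A {g : ℝ → ℝ} (hg : Pg g) {A : ℝ} (hA : 0 < A) (K : ℝ → ℝ) (hK : Continuous K) :
    HasDerivAt (fun a => ∫ τ in (0 : ℝ)..(1 + 6 / A), K τ * g (a * (1 + τ ^ 2)))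
      (∫ τ in (0 : ℝ)..(1 + 6 / A), K τ * ((1 + τ ^ 2) * deriv g (A * (1 + τ ^ 2)))) A := by
  have hT : (0 : ℝ) ≤ 1 + 6 / A := by positivity
  have hgc := KDA_gc hg
  have hgc' := KDA_gc' hg
  apply KDA_diff (fun a τ => K τ * g (a * (1 + τ ^ 2)))
    (fun a τ => K τ * ((1 + τ ^ 2) * deriv g (a * (1 + τ ^ 2)))) A 1 0 (1 + 6 / A) one_pos hT
  · intro x _
    apply Continuous.continuousOn
    fun_prop
  · apply Continuous.continuousOn
    fun_prop
  · intro x _ t _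
    exact (KDA_gA hg t x).const_mul _

lemma KDA_near {A c : ℝ} (hA : 0 < A) (hac : A * (1 - c ^ 2) ≤ 1 / 2) :
    ∀ᶠ a in 𝓝 A, A / 2 ≤ a ∧ a * (1 - c ^ 2) < 1 := by
  have h1 : ∀ᶠ a in 𝓝 A, A / 2 < a := Ioi_mem_nhds (by linarith)
  have h2 : ∀ᶠ a in 𝓝 A, a * (1 - c ^ 2) < 1 := by
    have h3 : ContinuousAt (fun a : ℝ => a * (1 - c ^ 2)) A := by fun_prop
    exact h3.eventually_lt_const (by linarith)
  filter_upwards [h1, h2] with a ha hb
  exact ⟨ha.le, hb⟩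

lemma KDA_NA (hKFA : KFA_stmt) {g : ℝ → ℝ} (hg : Pg g) {A c : ℝ} (hA : 0 < A)
    (hc : 0 < c) (hac : A * (1 - c ^ 2) ≤ 1 / 2) :
    HasDerivAt (fun a => NN g a c) (∫ τ in (0 : ℝ)..(1 + 6 / A),
      c / (τ ^ 2 + c ^ 2) * ((1 + τ ^ 2) * deriv g (A * (1 + τ ^ 2)))) A := by
  refine (KDA_A hg hA (fun τ => c / (τ ^ 2 + c ^ 2))
    (Continuous.div (by fun_prop) (by fun_prop) (fun τ => (KDA_pos hc).ne'))).congr_of_eventuallyEq ?_
  filter_upwards [KDA_near hA hac] with a ha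
  exact KDA_form hKFA hg hA ha.1 hc ha.2.le

lemma KDA_NAc (hKFA : KFA_stmt) {g : ℝ → ℝ} (hg : Pg g) {A c : ℝ} (hA : 0 < A)
    (hc : 0 < c) (hac : A * (1 - c ^ 2) ≤ 1 / 2) :
    HasDerivAt (fun a => deriv (fun t => NN g a t) c) (∫ τ in (0 : ℝ)..(1 + 6 / A),
      (τ ^ 2 - c ^ 2) / (τ ^ 2 + c ^ 2) ^ 2 * ((1 + τ ^ 2) * deriv g (A * (1 + τ ^ 2)))) A := by
  refine (KDA_A hg hA (fun τ => (τ ^ 2 - c ^ 2) / (τ ^ 2 + c ^ 2) ^ 2)
    (Continuous.div (by fun_prop) (by fun_prop)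
      (fun τ => by have := KDA_pos (τ := τ) hc; positivity))).congr_of_eventuallyEq ?_
  filter_upwards [KDA_near hA hac] with a ha
  exact (KDA_Nc hKFA hg hA ha.1 hc ha.2).deriv

/-- the basic bound -/
lemma KDA_bd (hMMT : MMT_stmt) {g : ℝ → ℝ} (hg : Pg g) {A : ℝ} (hA : 0 < A) (K : ℝ → ℝ) (C : ℝ)
    (hC : 0 ≤ C) (h : ∀ τ, 0 ≤ τ → 1 ≤ A * (1 + τ ^ 2) → A * (1 + τ ^ 2) ≤ 2 → |K τ| ≤ C * √A) :
    |∫ τ in (0 : ℝ)..(1 + 6 / A), K τ * deriv g (A * (1 + τ ^ 2))| ≤ C * MM g A := by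
  have hT : (0 : ℝ) ≤ 1 + 6 / A := by positivity
  obtain ⟨hint, -, hMM, -, heq⟩ := hMMT g hg A hA
  have hgc' := KDA_gc' hg
  have h1 : ‖∫ τ in (0 : ℝ)..(1 + 6 / A), K τ * deriv g (A * (1 + τ ^ 2))‖ ≤
      ∫ τ in (0 : ℝ)..(1 + 6 / A), C * √A * |deriv g (A * (1 + τ ^ 2))| := by
    apply intervalIntegral.norm_integral_le_of_norm_le hT
    · refine Eventually.of_forall fun τ hτ => ?_
      rw [norm_mul, Real.norm_eq_abs, Real.norm_eq_abs]
      by_cases h0 : deriv g (A * (1 + τ ^ 2)) = 0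
      · rw [h0]; simp
      · obtain ⟨h2, h3⟩ := KDA_supp hg h0
        exact mul_le_mul_of_nonneg_right (h τ hτ.1.le h2 h3) (abs_nonneg _)
    · apply Continuous.intervalIntegrable
      fun_prop
  have e5 : ∫ τ in (0 : ℝ)..(1 + 6 / A), |deriv g (A * (1 + τ ^ 2))| =
      ∫ τ in Ioc (0 : ℝ) (1 + 6 / A), |deriv g (A * (1 + τ ^ 2))| :=
    intervalIntegral.integral_of_le hT
  rw [Real.norm_eq_abs, intervalIntegral.integral_const_mul, e5] at h1
  have h2 : ∫ τ in Ioc (0 : ℝ) (1 + 6 / A), |deriv g (A * (1 + τ ^ 2))| ≤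
      ∫ τ in Ioi (0 : ℝ), |deriv g (A * (1 + τ ^ 2))| := by
    apply setIntegral_mono_set hint.abs
    · exact Eventually.of_forall fun _ => abs_nonneg _
    · exact Eventually.of_forall fun x hx => hx.1
  refine h1.trans ?_
  have h3 : 0 ≤ C * √A := by positivity
  calc C * √A * ∫ τ in Ioc (0 : ℝ) (1 + 6 / A), |deriv g (A * (1 + τ ^ 2))|
      ≤ C * √A * ∫ τ in Ioi (0 : ℝ), |deriv g (A * (1 + τ ^ 2))| :=
        mul_le_mul_of_nonneg_left h2 h3
    _ = C * (1 / 2 * MM g A) := by rw [← heq]; ring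
    _ ≤ C * MM g A := by
        apply mul_le_mul_of_nonneg_left _ hC
        linarith

/-- kernel bounds -/
lemma KDA_k {A c τ : ℝ} (hA : 0 < A) (hac : A * (1 - c ^ 2) ≤ 1 / 2)
    (h1 : 1 ≤ A * (1 + τ ^ 2)) (h2 : A * (1 + τ ^ 2) ≤ 2) :
    A ≤ 2 ∧ A ≤ 2 * √A ∧ A * (1 + τ ^ 2) ≤ 2 * A * (τ ^ 2 + c ^ 2) := by
  have h3 : A ≤ 2 := by nlinarith [mul_nonneg hA.le (sq_nonneg τ)]
  refine ⟨h3, ?_, by nlinarith⟩
  have h4 : √A ≤ 2 := by
    rw [Real.sqrt_le_left (by norm_num)]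
    linarith
  have h5 := Real.mul_self_sqrt hA.le
  have h6 := Real.sqrt_nonneg A
  nlinarith

/-- positive `c` -/
lemma KDA_main (hKFA : KFA_stmt) (hMMT : MMT_stmt) {g : ℝ → ℝ} (hg : Pg g) {A c : ℝ} (hA : 0 < A)
    (hc : 0 < c) (hc1 : c ≤ 1) (hac : A * (1 - c ^ 2) ≤ 1 / 2) :
    |NN g A c| ≤ 100 * MM g A ∧
    |deriv (fun t => NN g A t) c| ≤ 100 * MM g A ∧
    |deriv (fun t => deriv (fun u => NN g A u) t) c| ≤ 100 * MM g A ∧
    A * |deriv (fun a => NN g a c) A| ≤ 100 * MM g A ∧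
    A * |deriv (fun a => deriv (fun t => NN g a t) c) A| ≤ 100 * MM g A := by
  refine ⟨?_, ?_, ?_, ?_, ?_⟩
  · rw [KDA_form hKFA hg hA (by linarith) hc (by linarith), KDA_parts0 hg hA (by linarith) hc]
    apply KDA_bd hMMT hg hA _ 100 (by norm_num)
    intro τ hτ s1 s2
    obtain ⟨k1, k2, k3⟩ := KDA_k hA hac s1 s2
    rw [abs_neg, abs_mul]
    have e1 : |Real.arctan (τ / c)| ≤ 2 := by
      have := abs_le.2 ⟨(Real.neg_pi_div_two_lt_arctan (τ / c)).le, (Real.arctan_lt_pi_div_two (τ / c)).le⟩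
      have := Real.pi_lt_four
      linarith
    have e2 : |2 * A * τ| ≤ 4 * √A := by
      rw [abs_of_nonneg (by positivity)]
      have h5 := Real.sq_sqrt hA.le
      have h6 := Real.sqrt_nonneg A
      have h7 : (2 * A * τ) ^ 2 ≤ (4 * √A) ^ 2 := by
        rw [mul_pow, mul_pow, mul_pow, h5]
        nlinarith
      exact (pow_le_pow_iff_left₀ (by positivity) (by positivity) two_ne_zero).1 h7
    have h6 := Real.sqrt_nonneg A
    have h7 := abs_nonneg (2 * A * τ)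
    calc |Real.arctan (τ / c)| * |2 * A * τ| ≤ 2 * (4 * √A) := by gcongr
      _ ≤ 100 * √A := by linarith
  · rw [(KDA_Nc hKFA hg hA (by linarith) hc (by linarith)).deriv, KDA_parts1 hg hA (by linarith) hc]
    apply KDA_bd hMMT hg hA _ 100 (by norm_num)
    intro τ hτ s1 s2
    obtain ⟨k1, k2, k3⟩ := KDA_k hA hac s1 s2
    have hp := KDA_pos (τ := τ) hc
    rw [abs_of_nonneg (by positivity), div_le_iff₀ hp]
    have h6 := Real.sqrt_nonneg A
    have e1 : 2 * A * τ ^ 2 ≤ 2 * A * (τ ^ 2 + c ^ 2) := by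
      have : 0 ≤ 2 * A * c ^ 2 := by positivity
      linarith
    have e2 : 2 * A * (τ ^ 2 + c ^ 2) ≤ 100 * √A * (τ ^ 2 + c ^ 2) := by
      apply mul_le_mul_of_nonneg_right _ hp.le
      linarith
    linarith
  · rw [(KDA_Ncc hKFA hg hA hc (by linarith)).deriv]
    apply KDA_bd hMMT hg hA _ 100 (by norm_num)
    intro τ hτ s1 s2
    obtain ⟨k1, k2, k3⟩ := KDA_k hA hac s1 s2
    have hp := KDA_pos (τ := τ) hc
    rw [abs_neg, abs_of_nonneg (by positivity)]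
    have e1 : 4 * A * τ ^ 2 * c / (τ ^ 2 + c ^ 2) ^ 2 ≤ 8 * A ^ 2 := by
      rw [div_le_iff₀ (by positivity)]
      have q1 : 1 ≤ 2 * A * (τ ^ 2 + c ^ 2) := s1.trans k3
      have q2 : 4 * A * τ ^ 2 * c ≤ 4 * A * (τ ^ 2 + c ^ 2) := by
        have r1 : τ ^ 2 * c ≤ τ ^ 2 + c ^ 2 := by nlinarith [sq_nonneg τ, sq_nonneg c]
        nlinarith
      have q3 : 4 * A * (τ ^ 2 + c ^ 2) * 1 ≤
          4 * A * (τ ^ 2 + c ^ 2) * (2 * A * (τ ^ 2 + c ^ 2)) :=
        mul_le_mul_of_nonneg_left q1 (by positivity)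
      nlinarith
    have e2 : 8 * A ^ 2 ≤ 100 * √A := by
      have h6 := Real.sqrt_nonneg A
      nlinarith
    linarith
  · rw [(KDA_NA hKFA hg hA hc hac).deriv]
    have e0 : A * |∫ τ in (0 : ℝ)..(1 + 6 / A),
        c / (τ ^ 2 + c ^ 2) * ((1 + τ ^ 2) * deriv g (A * (1 + τ ^ 2)))| =
        |∫ τ in (0 : ℝ)..(1 + 6 / A),
          (c / (τ ^ 2 + c ^ 2) * (A * (1 + τ ^ 2))) * deriv g (A * (1 + τ ^ 2))| := by
      rw [← abs_of_pos hA, ← abs_mul, abs_of_pos hA, ← intervalIntegral.integral_const_mul]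
      congr 2
      funext τ
      ring
    rw [e0]
    apply KDA_bd hMMT hg hA _ 100 (by norm_num)
    intro τ hτ s1 s2
    obtain ⟨k1, k2, k3⟩ := KDA_k hA hac s1 s2
    have hp := KDA_pos (τ := τ) hc
    rw [abs_of_nonneg (by positivity), div_mul_eq_mul_div, div_le_iff₀ hp]
    have h6 := Real.sqrt_nonneg A
    have e1 : c * (A * (1 + τ ^ 2)) ≤ 2 * A * (τ ^ 2 + c ^ 2) := by
      have : c * (A * (1 + τ ^ 2)) ≤ 1 * (A * (1 + τ ^ 2)) := by gcongr
      linarith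
    have e2 : 2 * A * (τ ^ 2 + c ^ 2) ≤ 100 * √A * (τ ^ 2 + c ^ 2) := by
      apply mul_le_mul_of_nonneg_right _ hp.le
      linarith
    linarith
  · rw [(KDA_NAc hKFA hg hA hc hac).deriv]
    have e0 : A * |∫ τ in (0 : ℝ)..(1 + 6 / A),
        (τ ^ 2 - c ^ 2) / (τ ^ 2 + c ^ 2) ^ 2 * ((1 + τ ^ 2) * deriv g (A * (1 + τ ^ 2)))| =
        |∫ τ in (0 : ℝ)..(1 + 6 / A),
          ((τ ^ 2 - c ^ 2) / (τ ^ 2 + c ^ 2) ^ 2 * (A * (1 + τ ^ 2))) *
            deriv g (A * (1 + τ ^ 2))| := by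
      rw [← abs_of_pos hA, ← abs_mul, abs_of_pos hA, ← intervalIntegral.integral_const_mul]
      congr 2
      funext τ
      ring
    rw [e0]
    apply KDA_bd hMMT hg hA _ 100 (by norm_num)
    intro τ hτ s1 s2
    obtain ⟨k1, k2, k3⟩ := KDA_k hA hac s1 s2
    have hp := KDA_pos (τ := τ) hc
    have h6 := Real.sqrt_nonneg A
    have e3 : |τ ^ 2 - c ^ 2| ≤ τ ^ 2 + c ^ 2 := by
      rw [abs_le]
      constructor <;> nlinarith [sq_nonneg τ, sq_nonneg c]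
    rw [abs_mul, abs_div, abs_of_pos (by positivity : 0 < (τ ^ 2 + c ^ 2) ^ 2),
      abs_of_pos (by positivity : 0 < A * (1 + τ ^ 2)), div_mul_eq_mul_div,
      div_le_iff₀ (by positivity)]
    have e4 : |τ ^ 2 - c ^ 2| * (A * (1 + τ ^ 2)) ≤
        (τ ^ 2 + c ^ 2) * (2 * A * (τ ^ 2 + c ^ 2)) := by
      apply mul_le_mul e3 k3 (by positivity) (by positivity)
    have e5 : (τ ^ 2 + c ^ 2) * (2 * A * (τ ^ 2 + c ^ 2)) ≤ 100 * √A * (τ ^ 2 + c ^ 2) ^ 2 := by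
      have : 2 * A * (τ ^ 2 + c ^ 2) ^ 2 ≤ 100 * √A * (τ ^ 2 + c ^ 2) ^ 2 := by
        apply mul_le_mul_of_nonneg_right _ (by positivity)
        linarith
      nlinarith
    linarith

/-! ### smoothness, for `c = 0` -/

lemma KDA_open : IsOpen {p : ℝ × ℝ | 0 < p.1} := isOpen_lt continuous_const continuous_fst

lemma KDA_pd {f : ℝ × ℝ → ℝ} (hf : ContDiffOn ℝ ∞ f {p | 0 < p.1}) (v : ℝ × ℝ) :
    ContDiffOn ℝ ∞ (fun p => fderiv ℝ f p v) {p | 0 < p.1} := by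
  have h1 : ContDiffOn ℝ ∞ (fderiv ℝ f) {p | 0 < p.1} :=
    hf.fderiv_of_isOpen KDA_open (by simp)
  exact h1.clm_apply contDiffOn_const

lemma KDA_pd2 {f : ℝ × ℝ → ℝ} (hf : ContDiffOn ℝ ∞ f {p | 0 < p.1}) {A c : ℝ} (hA : 0 < A) :
    deriv (fun t => f (A, t)) c = fderiv ℝ f (A, c) (0, 1) := by
  have h1 : HasFDerivAt f (fderiv ℝ f (A, c)) (A, c) :=
    ((hf.contDiffAt (KDA_open.mem_nhds hA)).differentiableAt (by simp)).hasFDerivAt
  have h2 : HasDerivAt (fun t : ℝ => ((A, t) : ℝ × ℝ)) (0, 1) c :=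
    (hasDerivAt_const c A).prodMk (hasDerivAt_id c)
  exact (h1.comp_hasDerivAt c h2).deriv

lemma KDA_pd1 {f : ℝ × ℝ → ℝ} (hf : ContDiffOn ℝ ∞ f {p | 0 < p.1}) {A c : ℝ} (hA : 0 < A) :
    deriv (fun a => f (a, c)) A = fderiv ℝ f (A, c) (1, 0) := by
  have h1 : HasFDerivAt f (fderiv ℝ f (A, c)) (A, c) :=
    ((hf.contDiffAt (KDA_open.mem_nhds hA)).differentiableAt (by simp)).hasFDerivAt
  have h2 : HasDerivAt (fun t : ℝ => ((t, c) : ℝ × ℝ)) (1, 0) A :=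
    (hasDerivAt_id A).prodMk (hasDerivAt_const A c)
  exact (h1.comp_hasDerivAt A h2).deriv

lemma KDA_cont {f : ℝ × ℝ → ℝ} (hf : ContDiffOn ℝ ∞ f {p | 0 < p.1}) {A : ℝ} (hA : 0 < A) :
    ContinuousAt (fun c => f (A, c)) 0 := by
  have h1 : ContinuousAt f (A, 0) := hf.continuousOn.continuousAt (KDA_open.mem_nhds hA)
  exact ContinuousAt.comp (g := f) (f := fun c : ℝ => (A, c)) h1 (by fun_prop)

lemma KDA_lim {Q : ℝ → ℝ} {C : ℝ} (hQ : ContinuousAt Q 0) (h : ∀ c, 0 < c → c ≤ 1 → |Q c| ≤ C) :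
    |Q 0| ≤ C := by
  have h1 : Tendsto (fun c => |Q c|) (𝓝[>] 0) (𝓝 |Q 0|) :=
    (hQ.abs).tendsto.mono_left nhdsWithin_le_nhds
  apply le_of_tendsto h1
  filter_upwards [Ioo_mem_nhdsGT (show (0 : ℝ) < 1 by norm_num)] with c hc
  exact h c hc.1 hc.2.le

theorem KDA (hKFA : KFA_stmt) (hMMT : MMT_stmt) (hNS : NS_stmt) (hNO : NO_stmt) : KDA_stmt := by
  refine ⟨100, by norm_num, ?_⟩
  intro g hg A c hA hc hac
  rcases lt_trichotomy c 0 with h0 | h0 | h0
  · -- negative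
    obtain ⟨b, rfl⟩ : ∃ b, c = -b := ⟨-c, by ring⟩
    have hb : 0 < b := by linarith
    have hb1 : b ≤ 1 := by
      rw [abs_neg, abs_of_pos hb] at hc
      exact hc
    rw [neg_sq] at hac
    obtain ⟨m1, m2, m3, m4, m5⟩ := KDA_main hKFA hMMT hg hA hb hb1 hac
    have hodd : ∀ a t : ℝ, NN g a (-t) = -NN g a t := fun a t => hNO g a t
    have hdev : ∀ a t : ℝ, deriv (fun u => NN g a u) (-t) = deriv (fun u => NN g a u) t := by
      intro a t
      have h1 := deriv_comp_neg (fun u => NN g a u) t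
      have h2 : (fun x => NN g a (-x)) = fun x => -NN g a x := funext fun x => hodd a x
      rw [h2, deriv.fun_neg] at h1
      linarith
    refine ⟨?_, ?_, ?_, ?_, ?_⟩
    · rw [hodd, abs_neg]; exact m1
    · rw [hdev]; exact m2
    · have h1 := deriv_comp_neg (fun t => deriv (fun u => NN g A u) t) b
      have h2 : (fun x => deriv (fun u => NN g A u) (-x)) = fun x => deriv (fun u => NN g A u) x :=
        funext fun x => hdev A x
      rw [h2] at h1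
      have h3 : deriv (fun t => deriv (fun u => NN g A u) t) (-b) =
          -deriv (fun t => deriv (fun u => NN g A u) t) b := by linarith
      rw [h3, abs_neg]; exact m3
    · have h2 : (fun a => NN g a (-b)) = fun a => -NN g a b := funext fun a => hodd a b
      rw [h2, deriv.fun_neg, abs_neg]; exact m4
    · have h2 : (fun a => deriv (fun t => NN g a t) (-b)) = fun a => deriv (fun t => NN g a t) b :=
        funext fun a => hdev a b
      rw [h2]; exact m5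
  · -- zero
    subst h0
    have hA2 : A ≤ 1 / 2 := by simpa using hac
    have hac' : ∀ c : ℝ, A * (1 - c ^ 2) ≤ 1 / 2 := fun c => by
      nlinarith [mul_nonneg hA.le (sq_nonneg c)]
    have hmain := fun (c : ℝ) (h1 : 0 < c) (h2 : c ≤ 1) =>
      KDA_main hKFA hMMT hg hA h1 h2 (hac' c)
    set N : ℝ × ℝ → ℝ := fun p => NN g p.1 p.2 with hN
    have hNs : ContDiffOn ℝ ∞ N {p | 0 < p.1} := hNS g hg.1
    have hD2 := KDA_pd hNs (0, 1)
    have e2 : ∀ a c : ℝ, 0 < a → deriv (fun t => NN g a t) c = fderiv ℝ N (a, c) (0, 1) :=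
      fun a c ha => KDA_pd2 hNs ha
    have e1 : ∀ c : ℝ, deriv (fun a => NN g a c) A = fderiv ℝ N (A, c) (1, 0) :=
      fun c => KDA_pd1 hNs hA
    have e3 : ∀ c : ℝ, deriv (fun t => deriv (fun u => NN g A u) t) c =
        fderiv ℝ (fun p => fderiv ℝ N p (0, 1)) (A, c) (0, 1) := by
      intro c
      have h1 : (fun t => deriv (fun u => NN g A u) t) = fun t => fderiv ℝ N (A, t) (0, 1) :=
        funext fun t => e2 A t hA
      rw [h1]
      exact KDA_pd2 hD2 hA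
    have e4 : ∀ c : ℝ, deriv (fun a => deriv (fun t => NN g a t) c) A =
        fderiv ℝ (fun p => fderiv ℝ N p (0, 1)) (A, c) (1, 0) := by
      intro c
      have h1 : (fun a => deriv (fun t => NN g a t) c) =ᶠ[𝓝 A]
          fun a => fderiv ℝ N (a, c) (0, 1) := by
        filter_upwards [Ioi_mem_nhds hA] with a ha
        exact e2 a c ha
      rw [h1.deriv_eq]
      exact KDA_pd1 hD2 hA
    refine ⟨?_, ?_, ?_, ?_, ?_⟩
    · exact KDA_lim (Q := fun c => NN g A c) (KDA_cont hNs hA) (fun c h1 h2 => (hmain c h1 h2).1)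
    · rw [e2 A 0 hA]
      refine KDA_lim (Q := fun c => fderiv ℝ N (A, c) (0, 1)) (KDA_cont hD2 hA) (fun c h1 h2 => ?_)
      rw [← e2 A c hA]
      exact (hmain c h1 h2).2.1
    · rw [e3 0]
      refine KDA_lim (Q := fun c => fderiv ℝ (fun p => fderiv ℝ N p (0, 1)) (A, c) (0, 1))
        (KDA_cont (KDA_pd hD2 (0, 1)) hA) (fun c h1 h2 => ?_)
      rw [← e3 c]
      exact (hmain c h1 h2).2.2.1
    · rw [e1 0]
      have h3 : |fderiv ℝ N (A, 0) (1, 0)| ≤ 100 * MM g A / A := by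
        refine KDA_lim (Q := fun c => fderiv ℝ N (A, c) (1, 0)) (KDA_cont (KDA_pd hNs (1, 0)) hA)
          (fun c h1 h2 => ?_)
        rw [← e1 c, le_div_iff₀ hA, mul_comm]
        exact (hmain c h1 h2).2.2.2.1
      rwa [le_div_iff₀ hA, mul_comm] at h3
    · rw [e4 0]
      have h3 : |fderiv ℝ (fun p => fderiv ℝ N p (0, 1)) (A, 0) (1, 0)| ≤ 100 * MM g A / A := by
        refine KDA_lim (Q := fun c => fderiv ℝ (fun p => fderiv ℝ N p (0, 1)) (A, c) (1, 0))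
          (KDA_cont (KDA_pd hD2 (1, 0)) hA) (fun c h1 h2 => ?_)
        rw [← e4 c, le_div_iff₀ hA, mul_comm]
        exact (hmain c h1 h2).2.2.2.2
      rwa [le_div_iff₀ hA, mul_comm] at h3
  · -- positive
    rw [abs_of_pos h0] at hc
    exact KDA_main hKFA hMMT hg hA h0 hc hac

end SF
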